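import Mathlib
import Pool.Agent.V11132.NSum

namespace Pool.Agent.Results.MP_af65a2_co.NeighbourSums

open Finset Pool.Agent.V11132.NSum

/-- The disjoint union of cycles of lengths `t i`, for lengths at least `3`. -/
def cycles {k : ℕ} (t : Fin k → ℕ) : SimpleGraph (Σ i, Fin (t i)) :=
  SimpleGraph.fromRel fun x y => x.1 = y.1 ∧ (x.2.1 + 1) % t x.1 = y.2.1

/-- `f` is a bijection from the vertex set onto `{1, ..., n}`, with `n` the number of vertices. -/
def IsNumbering {V : Type*} (f : V → ℕ) : Prop :=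
  Set.BijOn f Set.univ (Set.Icc 1 (Nat.card V))

/-- The open neighbourhood sum `f(N(v))`. -/
noncomputable def nbrSum {V : Type*} (G : SimpleGraph V) (f : V → ℕ) (v : V) : ℕ :=
  ∑ᶠ u ∈ G.neighborSet v, f u

/-- The largest neighbourhood sum. -/
noncomputable def maxSum {V : Type*} (G : SimpleGraph V) (f : V → ℕ) : ℕ := ⨆ v, nbrSum G f v

/-- The smallest neighbourhood sum. -/
noncomputable def minSum {V : Type*} (G : SimpleGraph V) (f : V → ℕ) : ℕ := ⨅ v, nbrSum G f v

/-- The least possible largest neighbourhood sum. -/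
noncomputable def NS {V : Type*} (G : SimpleGraph V) : ℕ :=
  sInf {M | ∃ f, IsNumbering f ∧ M = maxSum G f}

/-- The largest possible smallest neighbourhood sum. -/
noncomputable def NSminus {V : Type*} (G : SimpleGraph V) : ℕ :=
  sSup {M | ∃ f, IsNumbering f ∧ M = minSum G f}

/-- The least possible spread. -/
noncomputable def NSspread {V : Type*} (G : SimpleGraph V) : ℕ :=
  sInf {M | ∃ f, IsNumbering f ∧ M = maxSum G f - minSum G f}

section

variable {k : ℕ} (t : Fin k → ℕ)

theorem rel_iff (a b : Σ i, Fin (t i)) :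
    (a.1 = b.1 ∧ (a.2.1 + 1) % t a.1 = b.2.1) ↔ nxt t a = b := by
  obtain ⟨i, p⟩ := a
  obtain ⟨j, q⟩ := b
  rw [nxt_mk]
  constructor
  · rintro ⟨h1, h2⟩
    simp only at h1 h2
    subst h1
    simp only [Sigma.mk.injEq, heq_eq_eq, true_and]
    exact Fin.ext h2
  · intro h
    simp only [Sigma.mk.injEq] at h
    obtain ⟨h1, h2⟩ := h
    subst h1
    simp only [heq_eq_eq] at h2
    exact ⟨rfl, congrArg Fin.val h2⟩

theorem nbrSum_nxt (ht : ∀ i, 3 ≤ t i) (f : (Σ i, Fin (t i)) → ℕ) (x : Σ i, Fin (t i)) :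
    nbrSum (cycles t) f (nxt t x) = f x + f (nxt t (nxt t x)) := by
  have hne : x ≠ nxt t (nxt t x) := fun h => nxt_nxt_ne t (ht x.1) x.2 h.symm
  have h2 : ∀ i, 2 ≤ t i := fun i => by have := ht i; omega
  have : (cycles t).neighborSet (nxt t x) = {x, nxt t (nxt t x)} := by
    ext y
    simp only [cycles, SimpleGraph.mem_neighborSet, SimpleGraph.fromRel_adj, rel_iff,
      Set.mem_insert_iff, Set.mem_singleton_iff]
    constructor
    · rintro ⟨-, h | h⟩
      · exact Or.inr h.symm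
      · exact Or.inl ((nxt t).injective h)
    · rintro (rfl | rfl)
      · exact ⟨nxt_ne t h2 y, Or.inr rfl⟩
      · exact ⟨(nxt_ne t h2 _).symm, Or.inl rfl⟩
  unfold nbrSum
  rw [this, finsum_mem_pair hne]

/-- one or two cycles in the distance two graph -/
def mm (i : Fin k) : ℕ := if Odd (t i) then 1 else 2

/-- lengths of the cycles of the distance two graph -/
def dd (c : Σ i, Fin (mm t i)) : ℕ := t c.1 / mm t c.1

def phiFun (w : Σ c, Fin (dd t c)) : Σ i, Fin (t i) :=
  ⟨w.1.1, ⟨(2 * w.2.1 + w.1.2.1) % t w.1.1, Nat.mod_lt _ (by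
    have h1 := w.2.pos
    unfold dd at h1
    exact Nat.pos_of_ne_zero fun h0 => by rw [h0] at h1; simp at h1)⟩⟩

theorem sum_dd : ∑ c, dd t c = ∑ i, t i := by
  rw [Fintype.sum_sigma]
  refine Finset.sum_congr rfl fun i _ => ?_
  unfold dd
  simp only [Finset.sum_const, Finset.card_univ, Fintype.card_fin, smul_eq_mul]
  unfold mm
  split_ifs with h
  · simp
  · rw [Nat.not_odd_iff_even] at h
    obtain ⟨m, hm⟩ := h
    omega

theorem nat_cnt (T : ℕ) : (if Odd T then 1 else 2) * (if Odd (T / if Odd T then 1 else 2)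
    then 1 else 0) = (if Odd T then 1 else 0) + 2 * (if T % 4 = 2 then 1 else 0) := by
  by_cases h1 : Odd T
  · rw [if_pos h1, Nat.div_one, if_pos h1, if_neg (by rw [Nat.odd_iff] at h1; omega)]
  · rw [if_neg h1, if_neg h1]
    by_cases h2 : T % 4 = 2
    · rw [if_pos (by rw [Nat.odd_iff] at h1 ⊢; omega), if_pos h2]
    · rw [if_neg (by rw [Nat.odd_iff] at h1 ⊢; omega), if_neg h2]

theorem oo_dd : oo (dd t) = (univ.filter (fun i => Odd (t i))).card +
    2 * (univ.filter (fun i => t i % 4 = 2)).card := by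
  unfold oo
  simp only [Finset.card_filter]
  rw [Fintype.sum_sigma, Finset.mul_sum, ← Finset.sum_add_distrib]
  refine Finset.sum_congr rfl fun i _ => ?_
  rw [← nat_cnt (t i)]
  show ∑ _b : Fin (mm t i), (if Odd (t i / mm t i) then 1 else 0) = _
  rw [Finset.sum_const, Finset.card_univ, Fintype.card_fin, smul_eq_mul]
  rfl

theorem nat_inj {T m b b' p p' : ℕ} (hm : m = if Odd T then 1 else 2) (hb : b < m) (hb' : b' < m)
    (hp : p < T / m) (hp' : p' < T / m) (h2 : (2 * p + b) % T = (2 * p' + b') % T) :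
    b = b' ∧ p = p' := by
  by_cases ho : Odd T
  · rw [if_pos ho] at hm
    subst hm
    rw [Nat.div_one] at hp hp'
    have hb0 : b = 0 := by omega
    have hb0' : b' = 0 := by omega
    rw [hb0, hb0', add_zero, add_zero] at h2
    refine ⟨by omega, ?_⟩
    have m1 : ∀ {q : ℕ}, q < T → (2 * q) % T = if 2 * q < T then 2 * q else 2 * q - T := by
      intro q hq
      split_ifs with hlt
      · exact Nat.mod_eq_of_lt hlt
      · rw [Nat.mod_eq_sub_mod (by omega), Nat.mod_eq_of_lt (by omega)]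
    rw [m1 hp, m1 hp'] at h2
    obtain ⟨m, hm⟩ := ho
    split_ifs at h2 <;> omega
  · rw [if_neg ho] at hm
    subst hm
    rw [Nat.not_odd_iff_even] at ho
    obtain ⟨m, hm⟩ := ho
    rw [Nat.mod_eq_of_lt (by omega), Nat.mod_eq_of_lt (by omega)] at h2
    omega

theorem nat_nxt {T m b p : ℕ} (hm : m = if Odd T then 1 else 2) (hp : p < T / m) :
    (2 * ((p + 1) % (T / m)) + b) % T = (((2 * p + b) % T + 1) % T + 1) % T := by
  rw [Nat.mod_add_mod, Nat.add_assoc, Nat.mod_add_mod, ← Nat.add_assoc]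
  by_cases hl : p + 1 < T / m
  · rw [Nat.mod_eq_of_lt hl]
    congr 1
    ring
  · have hl2 : p + 1 = T / m := by omega
    rw [hl2, Nat.mod_self, Nat.mul_zero, Nat.zero_add]
    have h3 : 2 * p + b + 1 + 1 = b + 2 * (T / m) := by omega
    rw [h3]
    by_cases ho : Odd T
    · rw [if_pos ho] at hm
      subst hm
      rw [Nat.div_one, Nat.add_mul_mod_self_right]
    · rw [if_neg ho] at hm
      subst hm
      rw [Nat.not_odd_iff_even] at ho
      obtain ⟨m, hm⟩ := ho
      have h4 : 2 * (T / 2) = T := by omega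
      rw [h4, Nat.add_mod_right]

theorem phi_inj : Function.Injective (phiFun t) := by
  rintro ⟨⟨i, b⟩, p⟩ ⟨⟨i', b'⟩, p'⟩ h
  simp only [phiFun, Sigma.mk.injEq] at h
  obtain ⟨h1, h2⟩ := h
  subst h1
  simp only [heq_eq_eq, Fin.mk.injEq] at h2
  obtain ⟨k1, k2⟩ := nat_inj (T := t i) (m := mm t i) rfl b.2 b'.2 p.2 p'.2 h2
  have k3 := Fin.ext k1
  subst k3
  have k4 := Fin.ext k2
  subst k4
  rfl

noncomputable def phi : (Σ c, Fin (dd t c)) ≃ Σ i, Fin (t i) :=
  Equiv.ofBijective (phiFun t) ((Fintype.bijective_iff_injective_and_card _).2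
    ⟨phi_inj t, by simp only [Fintype.card_sigma, Fintype.card_fin]; exact sum_dd t⟩)

theorem phi_nxt (w : Σ c, Fin (dd t c)) :
    phi t (nxt (dd t) w) = nxt t (nxt t (phi t w)) := by
  obtain ⟨⟨i, b⟩, p⟩ := w
  have e1 : phi t (nxt (dd t) ⟨⟨i, b⟩, p⟩) = phiFun t (nxt (dd t) ⟨⟨i, b⟩, p⟩) := rfl
  have e2 : phi t ⟨⟨i, b⟩, p⟩ = phiFun t ⟨⟨i, b⟩, p⟩ := rfl
  rw [e1, e2, nxt_mk]
  simp only [phiFun]
  rw [nxt_mk, nxt_mk]
  simp only [Sigma.mk.injEq, heq_eq_eq, true_and, Fin.mk.injEq]
  exact nat_nxt (T := t i) (m := mm t i) rfl p.2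

end

/-- Let `G` be the disjoint union of cycles of lengths `t 1, ..., t k`, not all equal to `4`
(in particular: not all equal), put `o` for the number of odd lengths plus twice the number of
lengths congruent to `2` modulo `4`, and `s = max o 1`. Then the three parameters are
`n + 1 + s`, `n + 1 - s` and `2 s`. -/
theorem result (k : ℕ) (t : Fin k → ℕ) (ht : ∀ i, 3 ≤ t i) (hne : ∃ i, t i ≠ 4) (n o s : ℕ)
    (hn : n = ∑ i, t i)
    (ho : o = (univ.filter (fun i => Odd (t i))).card +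
      2 * (univ.filter (fun i => t i % 4 = 2)).card)
    (hs : s = max o 1) :
    NS (cycles t) = n + 1 + s ∧ (NSminus (cycles t) : ℤ) = n + 1 - s ∧
      NSspread (cycles t) = 2 * s := by
  classical
  have hd2 : ∀ c, 2 ≤ dd t c := by
    rintro ⟨i, b⟩
    have := ht i
    unfold dd mm
    simp only
    split_ifs with h
    · omega
    · rw [Nat.not_odd_iff_even] at h
      obtain ⟨m, hm⟩ := h
      omega
  have hd3 : ∃ c, 3 ≤ dd t c := by
    obtain ⟨i, hi⟩ := hne
    have := ht i
    refine ⟨⟨i, ⟨0, by unfold mm; split_ifs <;> omega⟩⟩, ?_⟩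
    unfold dd mm
    simp only
    split_ifs with h
    · omega
    · rw [Nat.not_odd_iff_even] at h
      obtain ⟨m, hm⟩ := h
      omega
  have hsum : ∑ c, dd t c = n := by rw [sum_dd, hn]
  have hoo : max (oo (dd t)) 1 = s := by rw [oo_dd, ← ho, hs]
  have hcard : Nat.card (Σ i, Fin (t i)) = n := by
    rw [Nat.card_eq_fintype_card, Fintype.card_sigma]
    simp [hn]
  have hbdd : ∀ f, BddAbove (Set.range (nbrSum (cycles t) f)) := fun f => (Set.finite_range _).bddAbove
  have hbdd2 : ∀ f, BddBelow (Set.range (nbrSum (cycles t) f)) := fun f => (Set.finite_range _).bddBelow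
  have hne' : Nonempty (Σ i, Fin (t i)) := by
    obtain ⟨i, -⟩ := hne
    exact ⟨⟨i, ⟨0, by have := ht i; omega⟩⟩⟩
  -- lower bounds
  have low : ∀ f : (Σ i, Fin (t i)) → ℕ, IsNumbering f →
      n + 1 + s ≤ maxSum (cycles t) f ∧ minSum (cycles t) f + s ≤ n + 1 := by
    intro f hf
    have hinj : Function.Injective (fun w => f (phi t w)) := by
      intro a b hab
      exact (phi t).injective (hf.injOn (Set.mem_univ _) (Set.mem_univ _) hab)
    have hr : ∀ w, 1 ≤ f (phi t w) ∧ f (phi t w) ≤ ∑ c, dd t c := by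
      intro w
      have := hf.mapsTo (Set.mem_univ (phi t w))
      rw [hcard] at this
      rw [hsum]
      exact this
    obtain ⟨w, hw⟩ := lower (dd t) hd2 _ hinj hr hd3
    obtain ⟨v, hv⟩ := upper (dd t) hd2 _ hinj hr hd3
    rw [hsum, hoo, phi_nxt, ← nbrSum_nxt t ht] at hw
    rw [hsum, hoo, phi_nxt, ← nbrSum_nxt t ht] at hv
    refine ⟨hw.trans (le_ciSup (hbdd f) _), ?_⟩
    refine le_trans ?_ hv
    exact Nat.add_le_add_right (ciInf_le (hbdd2 f) _) _
  -- the labelling
  obtain ⟨f, hf, hfmax, hfmin⟩ : ∃ f : (Σ i, Fin (t i)) → ℕ, IsNumbering f ∧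
      maxSum (cycles t) f ≤ n + 1 + s ∧ n + 1 ≤ minSum (cycles t) f + s := by
    let _ : LinearOrder (Σ i, Fin (mm t i)) :=
      LinearOrder.lift' (Fintype.equivFin _) (Fintype.equivFin _).injective
    set g : (Σ c, Fin (dd t c)) → ℕ := fun w => FF (dd t) w.1 w.2.1 with hg
    have ginj : Function.Injective g := by
      rintro ⟨c, p⟩ ⟨c', p'⟩ h
      obtain ⟨h1, h2⟩ := FF_inj (dd t) p.2 p'.2 h
      subst h1
      rw [Fin.ext h2]
    have gsum : ∀ w, g w + g (nxt (dd t) w) ≤ n + 1 + s ∧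
        n + 1 ≤ g w + g (nxt (dd t) w) + s := by
      rintro ⟨c, p⟩
      have h1 := FF_sum (dd t) hd2 p.2
      have h2 := total (dd t)
      rw [hsum] at h2
      rw [hoo] at h1
      rw [nxt_mk]
      simp only [hg]
      omega
    refine ⟨fun v => g ((phi t).symm v), ?_, ?_, ?_⟩
    · refine ⟨?_, ?_, ?_⟩
      · intro v _
        rw [hcard]
        refine ⟨FF_pos (dd t) ((phi t).symm v).2.2, ?_⟩
        have := FF_le (dd t) ((phi t).symm v).2.2
        rw [hsum] at this
        exact this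
      · intro a _ b _ hab
        exact (phi t).symm.injective (ginj hab)
      · rw [hcard]
        intro x hx
        have := image_labels (dd t) g ginj (fun w => ⟨FF_pos (dd t) w.2.2, FF_le (dd t) w.2.2⟩)
        have hx2 : x ∈ univ.image g := by
          rw [this, hsum]
          exact Finset.mem_Icc.2 hx
        obtain ⟨w, -, rfl⟩ := Finset.mem_image.1 hx2
        exact ⟨phi t w, Set.mem_univ _, by simp⟩
    · refine ciSup_le fun v => ?_
      obtain ⟨x, rfl⟩ := (nxt t).surjective v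
      obtain ⟨w, rfl⟩ := (phi t).surjective x
      rw [nbrSum_nxt t ht, ← phi_nxt, Equiv.symm_apply_apply, Equiv.symm_apply_apply]
      exact (gsum w).1
    · have : n + 1 - s ≤ minSum (cycles t) (fun v => g ((phi t).symm v)) := by
        refine le_ciInf fun v => ?_
        obtain ⟨x, rfl⟩ := (nxt t).surjective v
        obtain ⟨w, rfl⟩ := (phi t).surjective x
        rw [nbrSum_nxt t ht, ← phi_nxt, Equiv.symm_apply_apply, Equiv.symm_apply_apply]
        have := (gsum w).2
        omega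
      omega
  have hl := low f hf
  refine ⟨?_, ?_, ?_⟩
  · apply IsLeast.csInf_eq
    refine ⟨⟨f, hf, by omega⟩, ?_⟩
    rintro _ ⟨f', hf', rfl⟩
    exact (low f' hf').1
  · have : NSminus (cycles t) = n + 1 - s := by
      apply IsGreatest.csSup_eq
      refine ⟨⟨f, hf, by omega⟩, ?_⟩
      rintro _ ⟨f', hf', rfl⟩
      have := (low f' hf').2
      omega
    rw [this]
    omega
  · apply IsLeast.csInf_eq
    refine ⟨⟨f, hf, by omega⟩, ?_⟩
    rintro _ ⟨f', hf', rfl⟩
    have := low f' hf'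
    omega

end Pool.Agent.Results.MP_af65a2_co.NeighbourSums
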